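import Pool.Agent.H777R4.DM.Stmts2
import Pool.Agent.H777R4.DM.Lead2

/-! Task LEADN of project H777-DSN: leading terms of `P(s_{f_1}, …, s_{f_n}) 1` (helper861; copy of
helper49's proof of LEAD2). -/

set_option autoImplicit false

namespace Pool.Agent.H861R3.DM.LeadN

open Pool.Agent.H777R4.DM hiding co_add co_smul co_sub co_wd co_zero lext_wd
open Pool.Agent.H777R4.DM.Lead2

attribute [local instance 100] LieRing.ofAssociativeRing

/-- the value at the word `W` -/
noncomputable def evN {n : ℕ} (f : Fin n → A) : List (Fin n) → A
  | [] => 1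
  | i :: W => s (f i) (evN f W)

/-- the leading term at the word `W` -/
noncomputable def leadN {n : ℕ} (σ : Fin n → AY) : List (Fin n) → AY
  | [] => 1
  | i :: W => leadN σ W * σ i

/-- the weight of a word -/
def NWN {n : ℕ} (N : Fin n → ℕ) : List (Fin n) → ℕ
  | [] => 0
  | i :: W => N i + NWN N W

theorem evN_cons {n : ℕ} (f : Fin n → A) (i : Fin n) (W : List (Fin n)) :
    evN f (i :: W) = s (f i) (evN f W) := rfl

theorem leadN_cons {n : ℕ} (σ : Fin n → AY) (i : Fin n) (W : List (Fin n)) :
    leadN σ (i :: W) = leadN σ W * σ i := rfl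

theorem NWN_cons {n : ℕ} (N : Fin n → ℕ) (i : Fin n) (W : List (Fin n)) :
    NWN N (i :: W) = N i + NWN N W := rfl

theorem PhiN_wd {n : ℕ} (f : Fin n → A) (W : List (Fin n)) : PhiN f (wd W) = evN f W := by
  induction W with
  | nil =>
    rw [wd_nil]
    simp [PhiN, evN]
  | cons i W ih =>
    have h : (wd (i :: W) : Al (Fin n)) = wd [i] * wd W := by rw [← wd_append]; rfl
    rw [h]
    unfold PhiN at ih ⊢
    simp only [LinearMap.comp_apply, AlgHom.toLinearMap_apply, LinearMap.applyₗ_apply_apply] at ih ⊢
    rw [map_mul, Module.End.mul_apply, ih, evN_cons]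
    unfold wd
    rw [MonoidAlgebra.lift_of, FreeMonoid.lift_ofList]
    simp only [List.map_cons, List.map_nil, List.prod_cons, List.prod_nil, mul_one]

theorem lamN_wd {n : ℕ} (σ : Fin n → AY) (W : List (Fin n)) :
    lamN σ (wd W.reverse) = leadN σ W := by
  induction W with
  | nil => rw [List.reverse_nil, wd_nil, map_one]; rfl
  | cons i W ih =>
    rw [List.reverse_cons, wd_append, map_mul, ih, leadN_cons]
    unfold lamN wd
    rw [MonoidAlgebra.lift_of, FreeMonoid.lift_ofList]
    simp only [List.map_cons, List.map_nil, List.prod_cons, List.prod_nil, mul_one]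

theorem leadN_ok : TaskLeadN := by
  rintro ⟨E, hE1, hE2⟩ n₀ f σ N q hf hθ hσ hinj
  -- the letters
  have hθge : ∀ i, Ge q (N i) (θ (f i)) := by
    intro i v hv
    by_cases h : co (θ (f i)) v = co (σ i) v
    · rw [h] at hv; exact (hσ i v hv).ge
    · exact (Nat.le_succ _).trans (hθ i v h)
  have hdge : ∀ i, Ge q (N i + 1) (θ (f i) - σ i) := by
    intro i v hv
    rw [co_sub] at hv
    exact hθ i v (fun h => hv (by rw [h, sub_self]))
  have hlead : ∀ W v, co (leadN σ W) v ≠ 0 → vw q v = NWN N W := by
    intro W
    induction W with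
    | nil =>
      intro v hv
      unfold leadN at hv
      rw [← wd_nil] at hv
      rw [← co_wd_ne hv]; rfl
    | cons i W ih =>
      intro v hv
      rw [leadN_cons] at hv
      obtain ⟨a, b, rfl, ha, hb⟩ := co_mul_ne hv
      rw [vw_append, ih a ha, hσ i b hb, NWN_cons, Nat.add_comm]
  have hmain : ∀ W, Ge q (NWN N W + 1) (θ (evN f W) - leadN σ W) := by
    intro W
    induction W with
    | nil =>
      intro v hv
      exfalso
      apply hv
      have : θ (evN f []) = leadN σ [] := by
        unfold evN leadN
        rw [← wd_nil]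
        unfold θ
        rw [lext_wd]
        rfl
      rw [this, sub_self, co_zero]
    | cons i W ih =>
      have hge : Ge q (NWN N W) (θ (evN f W)) := by
        have : θ (evN f W) = (θ (evN f W) - leadN σ W) + leadN σ W := by abel
        rw [this]
        exact (ih.mono (Nat.le_succ _)).add (fun v hv => (hlead W v hv).ge)
      have e : θ (evN f (i :: W)) - leadN σ (i :: W) =
          (θ (evN f W) - leadN σ W) * θ (f i) + leadN σ W * (θ (f i) - σ i) + E (f i) (θ (evN f W)) := by
        have : evN f (i :: W) = s (f i) (evN f W) := rfl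
        rw [this, hE1]
        have : leadN σ (i :: W) = leadN σ W * σ i := rfl
        rw [this]
        noncomm_ring
      rw [e]
      have hN : NWN N (i :: W) = N i + NWN N W := rfl
      rw [hN]
      refine Ge.add (Ge.add ?_ ?_) ?_
      · exact (ih.mul (hθge i)).mono (by omega)
      · have h1 : Ge q (NWN N W) (leadN σ W) := fun v hv => (hlead W v hv).ge
        exact (h1.mul (hdge i)).mono (by omega)
      · exact (E_ge hE2 (hf i) hge).mono (by omega)
  rw [injective_iff_map_eq_zero]
  intro P hP
  by_contra hP0
  classical
  have hne : P.coeff.support.Nonempty := by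
    rw [Finsupp.support_nonempty_iff]
    intro h
    exact hP0 (MonoidAlgebra.coeff_eq_zero.mp h)
  obtain ⟨m0, hm0, hmin⟩ := Finset.exists_min_image P.coeff.support
    (fun m => NWN N (FreeMonoid.toList m)) hne
  set n := NWN N (FreeMonoid.toList m0) with hn
  set S := P.coeff.support.filter (fun m => NWN N (FreeMonoid.toList m) = n) with hS
  -- the lowest part
  have hlow : ∑ m ∈ S, co P (FreeMonoid.toList m) • leadN σ (FreeMonoid.toList m) = 0 := by
    apply ext_co
    intro v
    rw [co_zero, co_sum]
    by_cases hv : vw q v = n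
    · have h1 : co (θ (PhiN f P)) v = 0 := by rw [hP, map_zero, co_zero]
      have h2 : θ (PhiN f P) = ∑ m ∈ P.coeff.support,
          co P (FreeMonoid.toList m) • θ (evN f (FreeMonoid.toList m)) := by
        conv_lhs => rw [expand P]
        rw [map_sum, map_sum]
        refine Finset.sum_congr rfl fun m _ => ?_
        rw [map_smul, map_smul, PhiN_wd]
      rw [h2, co_sum] at h1
      rw [← h1, hS, Finset.sum_filter]
      refine Finset.sum_congr rfl fun m hm => ?_
      have hd := hmain (FreeMonoid.toList m)
      by_cases hmn : NWN N (FreeMonoid.toList m) = n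
      · rw [if_pos hmn, co_smul, co_smul]
        congr 1
        by_contra hcon
        have := hd v (by rw [co_sub]; exact fun h => hcon (sub_eq_zero.mp h).symm)
        omega
      · rw [if_neg hmn, co_smul]
        have hlt : n < NWN N (FreeMonoid.toList m) := lt_of_le_of_ne (hmin m hm) (Ne.symm hmn)
        have hz : co (θ (evN f (FreeMonoid.toList m))) v = 0 := by
          by_contra hcon
          have hge : Ge q (NWN N (FreeMonoid.toList m)) (θ (evN f (FreeMonoid.toList m))) := by
            have : θ (evN f (FreeMonoid.toList m)) =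
              (θ (evN f (FreeMonoid.toList m)) - leadN σ (FreeMonoid.toList m)) +
                leadN σ (FreeMonoid.toList m) := by abel
            rw [this]
            exact (hd.mono (Nat.le_succ _)).add (fun v hv => (hlead _ v hv).ge)
          have := hge v hcon
          omega
        rw [hz, mul_zero]
    · refine Finset.sum_eq_zero fun m hm => ?_
      rw [co_smul]
      have hmn : NWN N (FreeMonoid.toList m) = n := (Finset.mem_filter.mp hm).2
      have hz : co (leadN σ (FreeMonoid.toList m)) v = 0 := by
        by_contra hcon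
        exact hv ((hlead _ v hcon).trans hmn)
      rw [hz, mul_zero]
  have hlam : lamN σ (∑ m ∈ S, co P (FreeMonoid.toList m) •
      wd (FreeMonoid.toList m).reverse) = 0 := by
    rw [map_sum, ← hlow]
    refine Finset.sum_congr rfl fun m _ => ?_
    rw [map_smul, lamN_wd]
  have hz := (injective_iff_map_eq_zero _).mp hinj _ hlam
  have hc : co (∑ m ∈ S, co P (FreeMonoid.toList m) • wd (FreeMonoid.toList m).reverse)
      (FreeMonoid.toList m0).reverse = co P (FreeMonoid.toList m0) := by
    rw [co_sum, Finset.sum_eq_single m0]
    · rw [co_smul, co_wd, if_pos rfl, mul_one]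
    · intro m _ hne'
      rw [co_smul, co_wd, if_neg, mul_zero]
      intro h
      exact hne' (FreeMonoid.toList.injective (List.reverse_injective h))
    · intro h
      exact absurd (by rw [hS]; exact Finset.mem_filter.mpr ⟨hm0, hn.symm⟩) h
  rw [hz, co_zero] at hc
  exact (Finsupp.mem_support_iff.mp hm0) hc.symm

end Pool.Agent.H861R3.DM.LeadN
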